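import Pool.Agent.X181.JE.D

/-!
# MP_6fcc74_mp: continuity in the density of the jellium free energy

For every admissible short-range pair potential `v` and every `β > 0`, the limiting free energy
`ρ ↦ g(β, ρ)` is continuous (even locally Lipschitz) on `(0, ∞)`.
-/

set_option autoImplicit false

noncomputable section

namespace Pool.Agent.Results.MP_6fcc74_mp.DensityContinuity

open MeasureTheory Metric Set Filter Topology

/-- Euclidean three-space. -/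
abbrev E3 := EuclideanSpace ℝ (Fin 3)

/-- The potential of the background, `φ(x) = ∫_Λ |x - y|⁻¹ dy`. -/
def phi (Λ : Set E3) (x : E3) : ℝ := ∫ y in Λ, ‖x - y‖⁻¹

/-- The jellium energy
`U_{ρ,Λ}(X) = ∑_{i<j} |x_i - x_j|⁻¹ - ρ ∑_i φ(x_i) + ½ ρ² ∫_Λ φ`. -/
def jelliumU (ρ : ℝ) (Λ : Set E3) {N : ℕ} (X : Fin N → E3) : ℝ :=
  (∑ i, ∑ j ∈ Finset.Ioi i, ‖X i - X j‖⁻¹) - ρ * ∑ i, phi Λ (X i)
    + 1 / 2 * ρ ^ 2 * ∫ x in Λ, phi Λ x

/-- The short-range pair energy `∑_{i<j} v(x_i - x_j)`. -/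
def pairV (v : E3 → ℝ) {N : ℕ} (X : Fin N → E3) : ℝ :=
  ∑ i, ∑ j ∈ Finset.Ioi i, v (X i - X j)

/-- The partition function
`Z(β,ρ;Λ) = (1/N!) ∫_{Λ^N} exp(-β [U_{ρ,Λ}(X) + ∑_{i<j} v(x_i - x_j)]) dX`. -/
def Z (v : E3 → ℝ) (β ρ : ℝ) (Λ : Set E3) (N : ℕ) : ℝ :=
  (N.factorial : ℝ)⁻¹ *
    ∫ X in Set.univ.pi (fun _ : Fin N => Λ), Real.exp (-β * (jelliumU ρ Λ X + pairV v X))

/-- `g(β,ρ;Λ) = |Λ|⁻¹ ln Z`. -/
def gFin (v : E3 → ℝ) (β ρ : ℝ) (Λ : Set E3) (N : ℕ) : ℝ :=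
  (volume.real Λ)⁻¹ * Real.log (Z v β ρ Λ N)

/-- The radius of the ball `Λ_j` centred at `0` with `ρ |Λ_j| = j`. -/
def radius (ρ : ℝ) (j : ℕ) : ℝ := (3 * j / (4 * Real.pi * ρ)) ^ (1 / 3 : ℝ)

/-- The ball `Λ_j`. -/
def Λb (ρ : ℝ) (j : ℕ) : Set E3 := ball 0 (radius ρ j)

/-- Admissible short-range potentials (the class of the problem). -/
structure Admissible (v : E3 → ℝ) : Prop where
  even : ∀ x, v (-x) = v x
  integrable : Integrable v volume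
  tail : ∃ r₀ C ε : ℝ, 0 ≤ r₀ ∧ 0 ≤ C ∧ 0 < ε ∧ ∀ x, r₀ < ‖x‖ → v x ≤ C * ‖x‖ ^ (-(3 + ε))
  stable : ∃ B : ℝ → ℝ, (∀ ρ₀ : ℝ, 0 < ρ₀ → ∃ K, ∀ᶠ ρ in 𝓝 ρ₀, |B ρ| ≤ K) ∧
    ∀ ρ : ℝ, 0 < ρ → ∀ Λ : Set E3, IsOpen Λ → IsConnected Λ → Bornology.IsBounded Λ →
      ∀ N : ℕ, ρ * volume.real Λ = N → ∀ X : Fin N → E3, (∀ i, X i ∈ Λ) →
        Function.Injective X → -B ρ * N ≤ jelliumU ρ Λ X + pairV v X
  limit : ∀ β : ℝ, 0 < β → ∀ ρ : ℝ, 0 < ρ →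
    ∃ L : ℝ, Tendsto (fun j : ℕ => gFin v β ρ (Λb ρ j) j) atTop (𝓝 L)

/-- The limiting free energy `g(β,ρ) = lim_j g(β,ρ;Λ_j)`. -/
def g (v : E3 → ℝ) (β ρ : ℝ) : ℝ := limUnder atTop (fun j : ℕ => gFin v β ρ (Λb ρ j) j)

theorem result :
    -- the balls are normalised as they should be
    (∀ ρ : ℝ, 0 < ρ → ∀ j : ℕ, ρ * volume.real (Λb ρ j) = j) ∧
    ∀ v : E3 → ℝ, Admissible v → ∀ β : ℝ, 0 < β →
      -- `g(β,ρ)` is the limit
      (∀ ρ : ℝ, 0 < ρ → Tendsto (fun j : ℕ => gFin v β ρ (Λb ρ j) j) atTop (𝓝 (g v β ρ))) ∧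
      -- and it is continuous in the density
      ContinuousOn (fun ρ => g v β ρ) (Ioi 0) ∧
      -- even locally Lipschitz
      LocallyLipschitzOn (Ioi 0) (fun ρ => g v β ρ) := by
  refine ⟨fun ρ hρ j => ?_, fun v hv β hβ => ?_⟩
  · have h := X181.JE.Vb_radius hρ j
    have h' : volume.real (Λb ρ j) = j / ρ := h
    rw [h']
    field_simp
  · have hlim : ∀ ρ : ℝ, 0 < ρ →
        Tendsto (fun j : ℕ => gFin v β ρ (Λb ρ j) j) atTop (𝓝 (g v β ρ)) := by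
      intro ρ hρ
      obtain ⟨L, hL⟩ := hv.limit β hβ ρ hρ
      exact tendsto_nhds_limUnder ⟨L, hL⟩
    obtain ⟨B, hBloc, hB⟩ := hv.stable
    have hB' : ∀ R : ℝ, 0 < R → ∀ N : ℕ, 0 < N → ∀ X : Fin N → E3,
        (∀ i, X i ∈ ball (0 : E3) R) → Function.Injective X →
        -B (N / X181.JE.Vb R) * N ≤ X181.JE.En v (N / X181.JE.Vb R) R X := by
      intro R hR N hN X hX hinj
      have hV := X181.JE.Vb_pos hR
      have hN' : (0 : ℝ) < N := by exact_mod_cast hN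
      refine hB (N / X181.JE.Vb R) (by positivity) (ball 0 R) isOpen_ball ?_ isBounded_ball N ?_
        X hX hinj
      · exact ⟨⟨0, mem_ball_self hR⟩, (convex_ball (0 : E3) R).isPreconnected⟩
      · have h2 : volume.real (ball (0 : E3) R) = X181.JE.Vb R := rfl
        rw [h2]
        field_simp
    have hg : ∀ ρ : ℝ, 0 < ρ → Tendsto (fun j : ℕ => (X181.JE.Vb (X181.JE.radius ρ j))⁻¹ *
        X181.JE.F v β (X181.JE.radius ρ j) j) atTop (𝓝 (g v β ρ)) := by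
      intro ρ hρ
      refine (hlim ρ hρ).congr' ?_
      filter_upwards [eventually_gt_atTop 0] with j hj
      have hj' : (0 : ℝ) < j := by exact_mod_cast hj
      have h1 : (j : ℝ) / X181.JE.Vb (X181.JE.radius ρ j) = ρ := by
        rw [X181.JE.Vb_radius hρ j]
        field_simp
      unfold X181.JE.F
      rw [h1]
      rfl
    have hLip := X181.JE.core hv.integrable hv.even hB' hβ hBloc hg
    exact ⟨hlim, hLip.continuousOn, hLip⟩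

end Pool.Agent.Results.MP_6fcc74_mp.DensityContinuity
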